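import Pool.Agent.H726Z.Canon.Forward

namespace Pool.Agent.Results.MP_6d0d7d_lc.ACanonIff

open Pool.Agent.H726Z.Canon

universe v w

/-- A closed permutation group on a countable set is extremely amenable if and only if it has the
canonisation property. -/
theorem result (X : Type) [Countable X] (G : Subgroup (Equiv.Perm X))
    (_hG : IsClosedPermGroup G) :
    ExtremelyAmenable.{v} G (permTop G) ↔ Canonisation.{w} G :=
  main G

end Pool.Agent.Results.MP_6d0d7d_lc.ACanonIff
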